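import Pool.Agent.H95.GY.Targets

/-!
# MP_c39b0e_gt: a one-parameter group is determined by its derivative
-/

set_option autoImplicit false

open Filter Topology MeasureTheory Set
open scoped Pointwise

universe u v

namespace Pool.Agent.H33.GY

open Pool.Agent.H95.GY

/-- (HU) uniqueness -/
theorem pf_HU (hUP : T_UP.{u}) (hRHO : T_RHO.{u}) : T_HU.{u} := by
  intro Q _ _ _ _ ν φ r C hG X Y D hX hY
  obtain ⟨hXo, c, hc, t1, ht1, hX1⟩ := hX
  obtain ⟨hYo, c', hc', t2, ht2, hY1⟩ := hY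
  obtain ⟨ρ, hρ, hν⟩ := hRHO Q ν r C hG.toPreG X hXo
  have hC : 0 < C := lt_of_lt_of_le one_pos hG.C_pos
  have h1 : ∀ t : ℝ, |t| ≤ min t1 t2 → ν (X t * (Y t)⁻¹) ≤ C * ((c + c') * t ^ 2) := by
    intro t ht
    obtain ⟨x, hx⟩ := hG.low (X t * (Y t)⁻¹)
    refine hx.trans (mul_le_mul_of_nonneg_left ?_ hC.le)
    have a1 := hX1 t ((Y t)⁻¹ * x) (ht.trans (min_le_left _ _))
    have a2 := hY1 t ((Y t)⁻¹ * x) (ht.trans (min_le_right _ _))
    rw [mul_inv_cancel_left] at a2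
    rw [← mul_assoc] at a1
    rw [abs_le] at a1 a2 ⊢
    constructor <;> nlinarith [a1.1, a1.2, a2.1, a2.2]
  have h0 : ∀ g : Q, ν g = 0 → g = 1 := by
    intro g hg
    by_contra hne
    obtain ⟨ε, hε, h⟩ := hG.small ({g}ᶜ) (isOpen_compl_singleton.mem_nhds (fun h => hne h.symm))
    exact h g (by rw [hg]; exact hε) rfl
  have h2 : ∀ t : ℝ, ρ * |t| ≤ r → X t = Y t := by
    intro t ht
    have h3 : ∀ᶠ n : ℕ in atTop, ν (X t * (Y t)⁻¹) ≤ C * (C * ((c + c') * t ^ 2)) / n := by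
      have h4 : Tendsto (fun n : ℕ => |t| / (n : ℝ)) atTop (𝓝 0) :=
        tendsto_const_div_atTop_nhds_zero_nat _
      have h5 : ∀ᶠ n : ℕ in atTop, |t| / (n : ℝ) < min t1 t2 :=
        h4.eventually (gt_mem_nhds (lt_min ht1 ht2))
      filter_upwards [h5, eventually_gt_atTop 0] with n hn hn0
      have hn1 : (0 : ℝ) < n := by exact_mod_cast hn0
      have h6 := hUP Q ν r C hG.toPreG (X (t / n)) (Y (t / n)) n (fun j hj => by
        rw [← hXo.nsmul]
        refine (hν _).trans (le_trans (mul_le_mul_of_nonneg_left ?_ hρ) ht)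
        rw [abs_mul, abs_div, Nat.abs_cast, Nat.abs_cast]
        have hj1 : (j : ℝ) ≤ n := by exact_mod_cast hj.le
        calc (j : ℝ) * (|t| / n) ≤ n * (|t| / n) :=
              mul_le_mul_of_nonneg_right hj1 (by positivity)
          _ = |t| := mul_div_cancel₀ _ hn1.ne')
      rw [hXo.div hn0.ne', hYo.div hn0.ne'] at h6
      have h7 := h1 (t / n) (by
        rw [abs_div, Nat.abs_cast]
        exact hn.le)
      calc ν (X t * (Y t)⁻¹) ≤ C * n * ν (X (t / n) * (Y (t / n))⁻¹) := h6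
        _ ≤ C * n * (C * ((c + c') * (t / n) ^ 2)) :=
            mul_le_mul_of_nonneg_left h7 (by positivity)
        _ = C * (C * ((c + c') * t ^ 2)) / n := by
            field_simp
    have h8 : Tendsto (fun n : ℕ => C * (C * ((c + c') * t ^ 2)) / (n : ℝ)) atTop (𝓝 0) :=
      tendsto_const_div_atTop_nhds_zero_nat _
    have h9 : ν (X t * (Y t)⁻¹) ≤ 0 := ge_of_tendsto h8 h3
    exact mul_inv_eq_one.1 (h0 _ (le_antisymm h9 (hG.nonneg _)))
  funext t
  obtain ⟨n, hn⟩ := exists_nat_gt (ρ * |t| / r)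
  have hn1 : (0 : ℝ) < n := lt_of_le_of_lt (div_nonneg (by positivity) hG.r_pos.le) hn
  have hn0 : n ≠ 0 := by
    rintro rfl
    simp at hn1
  rw [← hXo.div hn0 t, ← hYo.div hn0 t, h2 (t / n)]
  rw [abs_div, Nat.abs_cast, ← mul_div_assoc, div_le_iff₀ hn1]
  rw [div_lt_iff₀ hG.r_pos] at hn
  nlinarith

end Pool.Agent.H33.GY
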