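import Pool.Agent.H95.GY.Targets

/-!
# MP_c39b0e_gt: trapping
-/

set_option autoImplicit false

open Filter Topology MeasureTheory Set
open scoped Pointwise

universe u v

namespace Pool.Agent.H33.GY

open Pool.Agent.H95.GY

section Alg

variable {G : Type u} [Group G]

theorem inv_mem_pow {P : Set G} (hP : ∀ g ∈ P, g⁻¹ ∈ P) (n : ℕ) : ∀ g ∈ P ^ n, g⁻¹ ∈ P ^ n := by
  have h1 : P⁻¹ = P := by
    ext g
    rw [Set.mem_inv]
    exact ⟨fun h => by simpa using hP _ h, fun h => hP _ h⟩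
  intro g hg
  have h2 : g⁻¹ ∈ (P ^ n)⁻¹ := by
    rw [Set.mem_inv, inv_inv]
    exact hg
  rwa [← inv_pow, h1] at h2

theorem closure_pow {P : Set G} (hP : ∀ g ∈ P, g⁻¹ ∈ P) {x : G}
    (hx : x ∈ Subgroup.closure P) : ∃ n : ℕ, x ∈ P ^ n := by
  induction hx using Subgroup.closure_induction with
  | mem x hx => exact ⟨1, by rwa [pow_one]⟩
  | one => exact ⟨0, by rw [pow_zero]; exact Set.one_mem_one⟩
  | mul x y _ _ hx hy =>
    obtain ⟨m, hm⟩ := hx
    obtain ⟨n, hn⟩ := hy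
    exact ⟨m + n, by rw [pow_add]; exact Set.mul_mem_mul hm hn⟩
  | inv x _ hx =>
    obtain ⟨n, hn⟩ := hx
    exact ⟨n, inv_mem_pow hP n x hn⟩

theorem mem_pow_list {P : Set G} (n : ℕ) : ∀ x ∈ P ^ n, ∃ l : List G, l.length = n ∧
    (∀ g ∈ l, g ∈ P) ∧ l.prod = x := by
  induction n with
  | zero =>
    intro x hx
    rw [pow_zero, Set.mem_one] at hx
    exact ⟨[], rfl, by simp, by simp [hx]⟩
  | succ n ih =>
    intro x hx
    rw [pow_succ'] at hx
    obtain ⟨a, ha, b, hb, rfl⟩ := Set.mem_mul.1 hx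
    obtain ⟨l, h1, h2, h3⟩ := ih b hb
    refine ⟨a :: l, by simp [h1], ?_, by simp [h3]⟩
    intro g hg
    rcases List.mem_cons.1 hg with rfl | hg
    · exact ha
    · exact h2 g hg

theorem list_mem_pow {P : Set G} (l : List G) (hl : ∀ g ∈ l, g ∈ P) : l.prod ∈ P ^ l.length := by
  induction l with
  | nil => simp
  | cons a l ih =>
    rw [List.prod_cons, List.length_cons, pow_succ']
    exact Set.mul_mem_mul (hl a List.mem_cons_self)
      (ih fun g hg => hl g (List.mem_cons_of_mem _ hg))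

end Alg

section Top

variable {G : Type u} [Group G] [TopologicalSpace G] [IsTopologicalGroup G]

theorem nhds_pow (m : ℕ) : ∀ A ∈ 𝓝 (1 : G), ∃ V ∈ 𝓝 (1 : G), V ^ m ⊆ A := by
  induction m with
  | zero =>
    intro A hA
    refine ⟨univ, univ_mem, ?_⟩
    rw [pow_zero]
    intro x hx
    rw [Set.mem_one] at hx
    rw [hx]
    exact mem_of_mem_nhds hA
  | succ m ih =>
    intro A hA
    obtain ⟨B, hBo, hB1, hBA⟩ := exists_open_nhds_one_mul_subset hA
    obtain ⟨V, hV, hVB⟩ := ih B (hBo.mem_nhds hB1)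
    refine ⟨V ∩ B, inter_mem hV (hBo.mem_nhds hB1), ?_⟩
    rw [pow_succ]
    exact (Set.mul_subset_mul ((Set.pow_subset_pow_left inter_subset_left).trans hVB)
      inter_subset_right).trans hBA

/-- the core: the subgroup generated by the powers of small elements which is not contained in
the interior of `A` -/
theorem core (hEL : T_EL.{u}) (hUL : T_UL.{u, u}) [LocallyCompactSpace G] [T2Space G]
    (ω : Ultrafilter {V : Set G // V ∈ 𝓝 (1 : G)})
    (hω : ∀ V₀ ∈ 𝓝 (1 : G), ∀ᶠ V in (ω : Filter {V : Set G // V ∈ 𝓝 (1 : G)}), V.1 ⊆ V₀)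
    (A : Set G) (hAc : IsCompact A) (hA : A ∈ 𝓝 (1 : G))
    (M : {V : Set G // V ∈ 𝓝 (1 : G)} → ℕ) (hM1 : ∀ V, Pw V.1 ^ M V ⊆ A)
    (hM2 : ∀ V, ¬ Pw V.1 ^ (M V + 1) ⊆ A) :
    ∃ E : Subgroup G, (E : Set G) ⊆ A ∧
      (∀ x, x ∈ E ↔ ∀ W ∈ 𝓝 x, ∀ᶠ V in (ω : Filter {V : Set G // V ∈ 𝓝 (1 : G)}),
        (W ∩ Pw V.1 ^ M V).Nonempty) ∧ IsCompact (E : Set G) ∧
      ¬ (E : Set G) ⊆ interior A := by
  have hone : ∀ V : {V : Set G // V ∈ 𝓝 (1 : G)}, (1 : G) ∈ Pw V.1 := fun V =>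
    one_mem_Pw (mem_of_mem_nhds V.2)
  have hmono : ∀ (V : {V : Set G // V ∈ 𝓝 (1 : G)}) (m n : ℕ), m ≤ n →
      Pw V.1 ^ m ⊆ Pw V.1 ^ n := fun V m n h => Set.pow_subset_pow_right (hone V) h
  have hinf : ∀ m : ℕ, ∀ᶠ V in (ω : Filter {V : Set G // V ∈ 𝓝 (1 : G)}), m ≤ M V := by
    intro m
    obtain ⟨V₀, hV₀, hVA⟩ := nhds_pow m A hA
    filter_upwards [hω V₀ hV₀] with V hV
    by_contra h
    refine hM2 V ((hmono V _ m (by omega)).trans ?_)
    exact (Set.pow_subset_pow_left (Pw_subset.trans hV)).trans hVA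
  obtain ⟨E, hE1, hE2, hE3, hE4⟩ := hUL G {V : Set G // V ∈ 𝓝 (1 : G)} ω A
    (fun V => Pw V.1 ^ M V) hAc (Eventually.of_forall hM1) (fun V => by
      have := hmono V 0 (M V) (Nat.zero_le _)
      rw [pow_zero] at this
      exact this Set.one_mem_one)
    (fun V => inv_mem_pow (fun g hg => inv_mem_Pw hg) _) (by
      intro W hW
      obtain ⟨V₁, hV₁, L, hL, hEL1⟩ := hEL G A W hAc hW 2 two_pos
      filter_upwards [hω V₁ hV₁, hinf 1] with V hV hM
      have hM0 : (0 : ℝ) < M V := by exact_mod_cast hM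
      have hB1 : Bw (Pw V.1) (fun _ => 1 / (M V : ℝ)) 1 ⊆ Pw V.1 ^ M V := by
        rintro x ⟨l, hl1, hl2, rfl⟩
        rw [List.map_const', List.sum_replicate, nsmul_eq_mul, mul_one_div, div_le_one hM0] at hl2
        have hl3 : l.length ≤ M V := by exact_mod_cast hl2
        exact hmono V _ _ hl3 (list_mem_pow l hl1)
      have hB2 : Pw V.1 ^ M V * Pw V.1 ^ M V ⊆ Bw (Pw V.1) (fun _ => 1 / (M V : ℝ)) 2 := by
        rw [← pow_add]
        intro x hx
        obtain ⟨l, hl1, hl2, hl3⟩ := mem_pow_list _ x hx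
        refine ⟨l, hl2, ?_, hl3⟩
        rw [List.map_const', List.sum_replicate, nsmul_eq_mul, mul_one_div, div_le_iff₀ hM0, hl1]
        push_cast
        linarith
      have h3 := hEL1 (Pw V.1) (fun _ => 1 / (M V : ℝ))
        (fun g hg => ⟨inv_mem_Pw hg, by positivity, rfl⟩) (hB1.trans (hM1 V)) (by
          intro g hg
          obtain ⟨k, hk⟩ := exists_nat_ge (L * M V)
          refine ⟨k, ?_, fun j _ => hV ?_⟩
          · rw [mul_one_div, le_div_iff₀ hM0]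
            exact hk
          · have := hg (j : ℤ)
            rwa [zpow_natCast] at this)
      exact hB2.trans (h3.trans (Set.mul_subset_mul_right hB1)))
  refine ⟨E, hE2, hE3, hE1, fun hEA => ?_⟩
  have hy : ∀ V : {V : Set G // V ∈ 𝓝 (1 : G)}, ∃ y, y ∈ Pw V.1 ^ (M V + 1) ∧ y ∉ A := fun V =>
    Set.not_subset.1 (hM2 V)
  choose y hy1 hy2 using hy
  obtain ⟨x, hx, hyx⟩ := hE4 y (by
    intro W hW
    filter_upwards [hω W hW] with V hV
    have h1 := hy1 V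
    rw [pow_succ] at h1
    exact Set.mul_subset_mul_left (Pw_subset.trans hV) h1)
  have h2 : ∀ᶠ V in (ω : Filter {V : Set G // V ∈ 𝓝 (1 : G)}), y V ∈ interior A :=
    hyx (isOpen_interior.mem_nhds (hEA hx))
  obtain ⟨V, hV⟩ := h2.exists
  exact hy2 V (interior_subset hV)

end Top

/-- (TR) trapping -/
theorem pf_TR (hEL : T_EL.{u}) (hUL : T_UL.{u, u}) (hNOR : T_NOR.{u}) : T_TR.{u} := by
  intro G _ _ _ _ _ U₀ hU₀
  obtain ⟨U, hU, hUU, hUc⟩ := local_compact_nhds hU₀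
  by_contra hcon
  push Not at hcon
  have hcon2 : ∀ V : {V : Set G // V ∈ 𝓝 (1 : G)}, ∀ A ⊆ U, A ∈ 𝓝 (1 : G) →
      ∃ m : ℕ, Pw V.1 ^ m ⊆ A ∧ ¬ Pw V.1 ^ (m + 1) ⊆ A := by
    intro V A hAU hA
    have h1 : ∃ n : ℕ, ¬ Pw V.1 ^ n ⊆ A := by
      by_contra h
      push Not at h
      refine hcon V.1 V.2 fun x hx => ?_
      obtain ⟨n, hn⟩ := closure_pow (fun g hg => inv_mem_Pw hg) hx
      exact hUU (hAU (h n hn))
    classical
    have h2 := Nat.find_spec h1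
    have h3 : Nat.find h1 ≠ 0 := by
      intro h
      rw [h, pow_zero] at h2
      refine h2 fun x hx => ?_
      rw [Set.mem_one] at hx
      rw [hx]
      exact mem_of_mem_nhds hA
    obtain ⟨m, hm⟩ := Nat.exists_eq_succ_of_ne_zero h3
    refine ⟨m, ?_, ?_⟩
    · have h4 := Nat.find_min h1 (m := m) (by omega)
      rwa [not_not] at h4
    · rw [hm] at h2
      exact h2
  -- the ultrafilter
  obtain ⟨ω, hω⟩ : ∃ ω : Ultrafilter {V : Set G // V ∈ 𝓝 (1 : G)}, ∀ V₀ ∈ 𝓝 (1 : G),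
      ∀ᶠ V in (ω : Filter {V : Set G // V ∈ 𝓝 (1 : G)}), V.1 ⊆ V₀ := by
    have hne : (Filter.comap (Subtype.val : {V : Set G // V ∈ 𝓝 (1 : G)} → Set G)
        (𝓝 (1 : G)).smallSets).NeBot := by
      rw [Filter.comap_neBot_iff]
      intro t ht
      obtain ⟨s, hs, hst⟩ := Filter.eventually_smallSets.1
        (show ∀ᶠ V in (𝓝 (1 : G)).smallSets, V ∈ t from ht)
      exact ⟨⟨s, hs⟩, hst s subset_rfl⟩
    refine ⟨Ultrafilter.of (Filter.comap (Subtype.val : {V : Set G // V ∈ 𝓝 (1 : G)} → Set G)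
        (𝓝 (1 : G)).smallSets), fun V₀ hV₀ => ?_⟩
    refine Ultrafilter.of_le (Filter.comap (Subtype.val : {V : Set G // V ∈ 𝓝 (1 : G)} → Set G)
        (𝓝 (1 : G)).smallSets) ?_
    exact Filter.mem_comap.2 ⟨{V | V ⊆ V₀}, Filter.eventually_smallSets_subset.2 hV₀,
      fun V hV => hV⟩
  choose MU hMU1 hMU2 using fun V => hcon2 V U subset_rfl hU
  obtain ⟨E, hE1, hE2, hE3, -⟩ := core hEL hUL ω hω U hUc hU MU hMU1 hMU2
  obtain ⟨N, hNE, hNc, hNU, O, hO, hNO, hOH⟩ := hNOR G E hE3 (interior U)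
    (interior_mem_nhds.2 hU)
  obtain ⟨W, hW, hNW⟩ := compact_open_separated_mul_right hNc (hO.inter isOpen_interior)
    (subset_inter hNO hNU)
  obtain ⟨W₁, hW₁, hWW, hWc⟩ := local_compact_nhds hW
  have hsub : (N : Set G) * W₁ ⊆ O ∩ interior U := (Set.mul_subset_mul_left hWW).trans hNW
  have hAU : (N : Set G) * W₁ ⊆ U := hsub.trans (inter_subset_right.trans interior_subset)
  have hA1 : (N : Set G) * W₁ ∈ 𝓝 (1 : G) :=
    mem_of_superset hW₁ fun x hx => ⟨1, N.one_mem, x, hx, one_mul x⟩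
  choose MA hMA1 hMA2 using fun V => hcon2 V _ hAU hA1
  obtain ⟨F, hF1, hF2, hF3, hF4⟩ := core hEL hUL ω hω _ (hNc.mul hWc) hA1 MA hMA1 hMA2
  have hFE : F ≤ E := by
    intro x hx
    rw [hE2]
    intro W' hW'
    filter_upwards [(hF2 x).1 hx W' hW'] with V hV
    refine hV.mono (inter_subset_inter_right _ ?_)
    refine Set.pow_subset_pow_right (one_mem_Pw (mem_of_mem_nhds V.2)) ?_
    by_contra h
    refine hMU2 V ((Set.pow_subset_pow_right (one_mem_Pw (mem_of_mem_nhds V.2))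
      (show MU V + 1 ≤ MA V by omega)).trans ((hMA1 V).trans hAU))
  have hFN : F ≤ N := hOH F hFE (hF1.trans (hsub.trans inter_subset_left))
  refine hF4 fun x hx => ?_
  have h1 : (N : Set G) * interior W₁ ⊆ interior ((N : Set G) * W₁) :=
    interior_maximal (Set.mul_subset_mul_left interior_subset) isOpen_interior.mul_left
  exact h1 ⟨x, hFN hx, 1, mem_interior_iff_mem_nhds.2 hW₁, mul_one x⟩

end Pool.Agent.H33.GY
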